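import Pool.Agent.Helper40.Ct.Goals

/-!
MP_034a88_co, packet EZ: the boundary of the product of two simplices.
-/

set_option autoImplicit false

open Finset

namespace Pool.Agent.Helper96.Ct

open Pool.Agent.Helper40.Ct

section bdf

variable {V : Type}

theorem bdf_nil (f : List V → ℤ) : bdf f [] = 0 := by simp [bdf]

theorem bdf_cons (f : List V → ℤ) (a : V) (l : List V) :
    bdf f (a :: l) = f l - bdf (fun l' => f (a :: l')) l := by
  unfold bdf
  rw [List.length_cons, Finset.sum_range_succ']
  simp only [List.eraseIdx_cons_succ, List.eraseIdx_cons_zero, pow_zero, one_mul]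
  rw [add_comm, sub_eq_add_neg, ← Finset.sum_neg_distrib]
  congr 1
  refine Finset.sum_congr rfl fun i _ => ?_
  ring

theorem bdf_add (f g : List V → ℤ) (l : List V) :
    bdf (fun l' => f l' + g l') l = bdf f l + bdf g l := by
  unfold bdf
  rw [← Finset.sum_add_distrib]
  refine Finset.sum_congr rfl fun i _ => ?_
  ring

theorem bdf_mul (c : ℤ) (f : List V → ℤ) (l : List V) :
    bdf (fun l' => c * f l') l = c * bdf f l := by
  unfold bdf
  rw [Finset.mul_sum]
  refine Finset.sum_congr rfl fun i _ => ?_
  ring

theorem bdf_congr (f g : List V → ℤ) (l : List V)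
    (h : ∀ l', l'.length + 1 = l.length → f l' = g l') : bdf f l = bdf g l := by
  unfold bdf
  refine Finset.sum_congr rfl fun i hi => ?_
  rw [Finset.mem_range] at hi
  rw [h]
  rw [List.length_eraseIdx_of_lt hi]
  omega

end bdf

section Pf

variable {α β : Type}

theorem pf_nil_left (f : List (α × β) → ℤ) (X : List α) : Pf [] f X = 0 := by
  simp [Pf]

theorem pf_nil_right (E : List β) (f : List (α × β) → ℤ) : Pf E f [] = 0 := by
  match E with
  | [] => simp [Pf]
  | [e] => simp [Pf]
  | e :: e' :: es => simp [Pf]

theorem pf_single (e : β) (f : List (α × β) → ℤ) (X : List α) (hX : X ≠ []) :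
    Pf [e] f X = f (X.map fun y => (y, e)) := by
  match X, hX with
  | x :: xs, _ => simp only [Pf]

/-- the first step of a path -/
theorem pf_step (e : β) (E : List β) (hE : E ≠ []) (f : List (α × β) → ℤ) (x : α)
    (Y : List α) :
    Pf (e :: E) f (x :: Y) = Pf (e :: E) (fun l => f ((x, e) :: l)) Y +
      (-1) ^ Y.length * Pf E (fun l => f ((x, e) :: l)) (x :: Y) := by
  match E, hE with
  | e' :: es, _ =>
    simp only [Pf, List.length_cons]
    rw [Finset.sum_range_succ']
    simp only [List.drop_succ_cons, List.drop_zero, List.take_succ_cons, List.map_cons,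
      List.cons_append, List.take_zero, List.map_nil, List.nil_append, Nat.add_sub_cancel,
      Nat.sub_zero, Nat.reduceAdd]
    congr 1
    refine Finset.sum_congr rfl fun i hi => ?_
    rw [Finset.mem_range] at hi
    congr 2
    omega

theorem pf_step' (e : β) (E : List β) (f : List (α × β) → ℤ) (x : α)
    (Y : List α) (hY : Y ≠ []) :
    Pf (e :: E) f (x :: Y) = Pf (e :: E) (fun l => f ((x, e) :: l)) Y +
      (-1) ^ Y.length * Pf E (fun l => f ((x, e) :: l)) (x :: Y) := by
  by_cases hE : E = []
  · subst hE
    rw [pf_nil_left, pf_single e f _ (List.cons_ne_nil _ _), pf_single e _ _ hY]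
    simp
  · exact pf_step e E hE f x Y

theorem pf_sub (E : List β) : ∀ (f g : List (α × β) → ℤ) (X : List α),
    Pf E (fun l => f l - g l) X = Pf E f X - Pf E g X := by
  induction E with
  | nil => intro f g X; simp [Pf]
  | cons e E ih =>
    intro f g X
    match E, ih with
    | [], _ =>
      by_cases hX : X = []
      · subst hX; simp [Pf]
      · rw [pf_single _ _ _ hX, pf_single _ _ _ hX, pf_single _ _ _ hX]
    | e' :: es, ih =>
      simp only [Pf]
      rw [← Finset.sum_sub_distrib]
      refine Finset.sum_congr rfl fun i _ => ?_
      rw [ih]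
      ring

theorem ez_aux (E : List β) : ∀ (f : List (α × β) → ℤ) (X : List α), X ≠ [] → E ≠ [] →
    2 ≤ X.length ∨ 2 ≤ E.length →
    Pf E (bdf f) X = bdf (Pf E f) X + (-1) ^ (X.length - 1) * bdf (fun E' => Pf E' f X) E := by
  induction E with
  | nil => intro f X _ h; exact absurd rfl h
  | cons e E ihE =>
    intro f X
    by_cases hE : E = []
    · subst hE
      intro hX _ h2
      have h3 : 2 ≤ X.length := by
        rcases h2 with h | h
        · exact h
        · simp at h
      rw [pf_single _ _ _ hX, bdf_cons, bdf_nil, pf_nil_left]
      have h4 : bdf (Pf [e] f) X = bdf (fun l => f (l.map fun y => (y, e))) X := by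
        refine bdf_congr _ _ _ fun l' hl' => ?_
        refine pf_single _ _ _ fun h0 => ?_
        rw [h0] at hl'
        simp at hl'
        omega
      rw [h4]
      unfold bdf
      simp only [List.length_map, List.eraseIdx_map, mul_zero, sub_zero, add_zero]
    · induction X generalizing f with
      | nil => intro h; exact absurd rfl h
      | cons x Y ihX =>
        intro _ _ _
        have key : Pf (e :: E) (bdf f) (x :: Y) =
            (Pf (e :: E) f Y - Pf (e :: E) (bdf fun l => f ((x, e) :: l)) Y) +
            (-1) ^ Y.length * (Pf E f (x :: Y) - Pf E (bdf fun l => f ((x, e) :: l)) (x :: Y)) := by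
          rw [pf_step e E hE]
          simp only [bdf_cons]
          rw [pf_sub, pf_sub]
        rw [key]
        by_cases hY : Y = []
        · subst hY
          rw [pf_nil_right, pf_nil_right]
          simp only [List.length_nil, pow_zero, one_mul, sub_zero, zero_add, List.length_cons,
            Nat.sub_self]
          rw [bdf_cons (Pf (e :: E) f), bdf_nil, pf_nil_right, bdf_cons (fun E' => Pf E' f [x])]
          by_cases hE2 : 2 ≤ E.length
          · have h := ihE (fun l => f ((x, e) :: l)) [x] (List.cons_ne_nil _ _) hE (Or.inr hE2)
            rw [h, bdf_cons (Pf E _), bdf_nil, pf_nil_right]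
            simp only [List.length_cons, List.length_nil, zero_add, Nat.sub_self, pow_zero,
              one_mul, sub_zero]
            congr 1
            refine bdf_congr _ _ _ fun l' hl' => ?_
            have hl0 : l' ≠ [] := by
              intro h0
              rw [h0] at hl'
              simp at hl'
              omega
            rw [pf_step e l' hl0, pf_nil_right]
            simp
          · obtain ⟨e', rfl⟩ : ∃ e', E = [e'] := by
              match E, hE, hE2 with
              | [e'], _, _ => exact ⟨e', rfl⟩
              | a :: b :: c, _, h => simp at h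
            rw [pf_single _ _ _ (List.cons_ne_nil _ _), pf_single _ _ _ (List.cons_ne_nil _ _),
              bdf_cons (fun E' => Pf (e :: E') f [x]), bdf_nil,
              pf_single _ _ _ (List.cons_ne_nil _ _)]
            simp [bdf_cons, bdf_nil]
        · have h1 := ihX (fun l => f ((x, e) :: l)) hY (List.cons_ne_nil _ _)
            (Or.inr (by
              have := List.length_pos_iff.2 hE
              simp only [List.length_cons]
              omega))
          have h2 := ihE (fun l => f ((x, e) :: l)) (x :: Y) (List.cons_ne_nil _ _) hE
            (Or.inl (by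
              have := List.length_pos_iff.2 hY
              simp only [List.length_cons]
              omega))
          obtain ⟨n, hn⟩ : ∃ n, Y.length = n + 1 := by
            have := List.length_pos_iff.2 hY
            exact ⟨Y.length - 1, by omega⟩
          rw [h1, h2]
          simp only [List.length_cons, Nat.add_sub_cancel, hn]
          have a1 : bdf (fun Y' => Pf (e :: E) f (x :: Y')) Y =
              bdf (Pf (e :: E) fun l => f ((x, e) :: l)) Y +
              (-1) ^ n * bdf (fun Y' => Pf E (fun l => f ((x, e) :: l)) (x :: Y')) Y := by
            rw [← bdf_mul, ← bdf_add]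
            refine bdf_congr _ _ _ fun l' hl' => ?_
            rw [pf_step e E hE]
            have : l'.length = n := by omega
            rw [this]
          have a2 : bdf (fun E' => Pf (e :: E') f (x :: Y)) E =
              bdf (fun E' => Pf (e :: E') (fun l => f ((x, e) :: l)) Y) E +
              (-1) ^ (n + 1) * bdf (fun E' => Pf E' (fun l => f ((x, e) :: l)) (x :: Y)) E := by
            rw [← bdf_mul, ← bdf_add]
            refine bdf_congr _ _ _ fun l' _ => ?_
            rw [pf_step' e l' f x Y hY, hn]
          rw [bdf_cons (Pf (e :: E) f), a1, bdf_cons (fun E' => Pf E' f (x :: Y)), a2,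
            bdf_cons (fun E' => Pf E' (fun l => f ((x, e) :: l)) Y),
            bdf_cons (Pf E fun l => f ((x, e) :: l))]
          have hsq : ((-1 : ℤ) ^ n) * (-1) ^ n = 1 := by
            rw [← mul_pow]; simp
          rw [pow_succ]
          linear_combination (-(bdf (fun E' => Pf E' (fun l => f ((x, e) :: l)) (x :: Y)) E) +
            (bdf (fun E' => Pf E' (fun l => f ((x, e) :: l)) (x :: Y)) E)) * hsq

end Pf

theorem ez : EZ := by
  intro α β E f X hX hE h
  exact ez_aux E f X hX hE h

end Pool.Agent.Helper96.Ct
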